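import Mathlib

/-!
Two linear orders on a finite set whose common cover graph needs many colours.

`Proper h χ` says that `χ` is a proper colouring of the Hasse diagram of the two-dimensional
order `u < v ∧ h u < h v`.  We build, by induction on the number of rounds, a finite family of
height functions such that every fixed colouring with `K` colours is proper for only a small
fraction of the family; the union bound then gives one height function without any proper
colouring.
-/

namespace Q119.PT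

open Finset

/-- `χ` is proper on the cover pairs of the two-dimensional order given by `<` and `h`. -/
def Proper {X H C : Type} [LinearOrder X] [LinearOrder H] (h : X → H) (χ : X → C) : Prop :=
  ∀ u v, u < v → h u < h v → (∀ z, u < z → z < v → h u < h z → h z < h v → False) → χ u ≠ χ v

/-- the height function of the next round -/
def step {X H Ω : Type} {w : ℕ} (h : Ω → X → H) (ω : Fin w → Ω) (σ : X → Equiv.Perm (Fin w))
    (p : X ×ₗ Fin w) : Fin w ×ₗ H :=
  toLex (σ (ofLex p).1 (ofLex p).2, h (ω (σ (ofLex p).1 (ofLex p).2)) (ofLex p).1)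

theorem step_injective {X H Ω : Type} {w : ℕ} {h : Ω → X → H}
    (hh : ∀ ω, Function.Injective (h ω)) (ω : Fin w → Ω) (σ : X → Equiv.Perm (Fin w)) :
    Function.Injective (step h ω σ) := by
  intro p q hpq
  obtain ⟨⟨α, a⟩, rfl⟩ : ∃ p' : X × Fin w, p = toLex p' := ⟨ofLex p, rfl⟩
  obtain ⟨⟨β, b⟩, rfl⟩ : ∃ p' : X × Fin w, q = toLex p' := ⟨ofLex q, rfl⟩
  simp only [step, ofLex_toLex] at hpq
  have h1 := congrArg ofLex hpq
  simp only [ofLex_toLex, Prod.mk.injEq] at h1
  obtain ⟨h2, h3⟩ := h1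
  rw [h2] at h3
  have h4 : α = β := hh _ h3
  subst h4
  have h5 : a = b := (σ α).injective h2
  subst h5
  rfl

/-- permutations avoiding a monochromatic pair of neighbours inside a window -/
def Good {w K : ℕ} (c : Fin w → Fin K) (τ : Equiv.Perm (Fin w)) : Prop :=
  ∀ s t : Fin w, s < t → (τ t : ℕ) = (τ s : ℕ) + 1 → c s ≠ c t

theorem good_of_proper {X H Ω : Type} [LinearOrder X] [LinearOrder H] {w K : ℕ}
    (h : Ω → X → H) (ω : Fin w → Ω) (σ : X → Equiv.Perm (Fin w))
    (χ : X ×ₗ Fin w → Fin K) (hp : Proper (step h ω σ) χ) (α : X) :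
    Good (fun a => χ (toLex (α, a))) (σ α) := by
  intro s t hst hτ
  refine hp (toLex (α, s)) (toLex (α, t)) ?_ ?_ ?_
  · rw [Prod.Lex.toLex_lt_toLex]; right; exact ⟨rfl, hst⟩
  · simp only [step, ofLex_toLex]
    rw [Prod.Lex.toLex_lt_toLex]; left
    show σ α s < σ α t
    rw [Fin.lt_def, hτ]; omega
  · intro z h1 h2 h3 h4
    obtain ⟨⟨γ, c⟩, rfl⟩ : ∃ p' : X × Fin w, z = toLex p' := ⟨ofLex z, rfl⟩
    rw [Prod.Lex.toLex_lt_toLex] at h1 h2
    simp only [step, ofLex_toLex] at h3 h4
    rw [Prod.Lex.toLex_lt_toLex] at h3 h4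
    simp only at h1 h2 h3 h4
    have hγ : α = γ := by
      rcases h1 with h1 | ⟨h1, _⟩
      · rcases h2 with h2 | ⟨h2, _⟩
        · exact absurd (h1.trans h2) (lt_irrefl _)
        · exact h2.symm
      · exact h1
    subst hγ
    have h1' : s < c := by
      rcases h1 with h1 | ⟨_, h1⟩
      · exact absurd h1 (lt_irrefl _)
      · exact h1
    have h2' : c < t := by
      rcases h2 with h2 | ⟨_, h2⟩
      · exact absurd h2 (lt_irrefl _)
      · exact h2
    have n1 : σ α s ≠ σ α c := fun hh => (ne_of_lt h1') ((σ α).injective hh)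
    have n2 : σ α c ≠ σ α t := fun hh => (ne_of_lt h2') ((σ α).injective hh)
    have l1 : (σ α s : ℕ) < σ α c := by
      rcases h3 with h3 | ⟨h3, _⟩
      · exact h3
      · exact absurd h3 n1
    have l2 : (σ α c : ℕ) < σ α t := by
      rcases h4 with h4 | ⟨h4, _⟩
      · exact h4
      · exact absurd h4 n2
    omega

theorem sub_proper {X H Ω : Type} [LinearOrder X] [LinearOrder H] {w K : ℕ}
    (h : Ω → X → H)
    (ω : Fin w → Ω) (σ : X → Equiv.Perm (Fin w))
    (χ : X ×ₗ Fin w → Fin K) (hp : Proper (step h ω σ) χ) (b : Fin w) :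
    Proper (h (ω b)) (fun α => χ (toLex (α, (σ α).symm b))) := by
  intro u v huv hhuv hempty
  refine hp (toLex (u, (σ u).symm b)) (toLex (v, (σ v).symm b)) ?_ ?_ ?_
  · rw [Prod.Lex.toLex_lt_toLex]; left; exact huv
  · simp only [step, ofLex_toLex, Equiv.apply_symm_apply]
    rw [Prod.Lex.toLex_lt_toLex]; right; exact ⟨rfl, hhuv⟩
  · intro z h1 h2 h3 h4
    obtain ⟨⟨γ, c⟩, rfl⟩ : ∃ p' : X × Fin w, z = toLex p' := ⟨ofLex z, rfl⟩
    rw [Prod.Lex.toLex_lt_toLex] at h1 h2
    simp only [step, ofLex_toLex, Equiv.apply_symm_apply] at h3 h4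
    rw [Prod.Lex.toLex_lt_toLex] at h3 h4
    simp only at h1 h2 h3 h4
    have e1 : b ≤ σ γ c := by
      rcases h3 with h3 | ⟨h3, _⟩
      · exact h3.le
      · exact h3.le
    have e2 : σ γ c ≤ b := by
      rcases h4 with h4 | ⟨h4, _⟩
      · exact h4.le
      · exact h4.le
    have e : σ γ c = b := le_antisymm e2 e1
    rw [e] at h3 h4
    have g3 : h (ω b) u < h (ω b) γ := by
      rcases h3 with h3 | ⟨_, h3⟩
      · exact absurd h3 (lt_irrefl _)
      · exact h3
    have g4 : h (ω b) γ < h (ω b) v := by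
      rcases h4 with h4 | ⟨_, h4⟩
      · exact absurd h4 (lt_irrefl _)
      · exact h4
    have l1 : u < γ := by
      rcases h1 with h1 | ⟨h1, _⟩
      · exact h1
      · exact absurd g3 (by rw [h1]; exact lt_irrefl _)
    have l2 : γ < v := by
      rcases h2 with h2 | ⟨h2, _⟩
      · exact h2
      · exact absurd g4 (by rw [h2]; exact lt_irrefl _)
    exact hempty γ l1 l2 g3 g4

theorem exists_not_good {K : ℕ} (c : Fin (K + 1) → Fin K) :
    ∃ τ : Equiv.Perm (Fin (K + 1)), ¬ Good c τ := by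
  obtain ⟨s, t, hne, hst⟩ := Fintype.exists_ne_map_eq_of_card_lt c (by simp)
  wlog hlt : s < t generalizing s t
  · exact this t s hne.symm hst.symm (lt_of_le_of_ne (not_lt.mp hlt) hne.symm)
  have hs : (s : ℕ) + 1 < K + 1 := by
    have h1 : (s : ℕ) < t := hlt
    have h2 := t.isLt
    omega
  set s' : Fin (K + 1) := ⟨s + 1, hs⟩ with hs'
  have hss' : s ≠ s' := by
    intro h0
    have := congrArg Fin.val h0
    simp [hs'] at this
  refine ⟨Equiv.swap t s', fun hg => hg s t hlt ?_ hst⟩
  rw [Equiv.swap_apply_left, Equiv.swap_apply_of_ne_of_ne hne hss']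

open Classical in
theorem card_good {K : ℕ} (c : Fin (K + 1) → Fin K) :
    (univ.filter (fun τ : Equiv.Perm (Fin (K + 1)) => Good c τ)).card
      ≤ (K + 1).factorial - 1 := by
  obtain ⟨τ, hτ⟩ := exists_not_good c
  have h1 : univ.filter (fun τ : Equiv.Perm (Fin (K + 1)) => Good c τ) ⊆ univ.erase τ := by
    intro ρ hρ
    rw [mem_erase]
    refine ⟨?_, mem_univ _⟩
    rintro rfl
    exact hτ (mem_filter.mp hρ).2
  have h2 := card_le_card h1
  rw [card_erase_of_mem (mem_univ _), card_univ, Fintype.card_perm, Fintype.card_fin] at h2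
  exact h2

open Classical in
theorem count_step {X H Ω : Type} [Fintype X] [LinearOrder X] [LinearOrder H] [Fintype Ω] {K : ℕ}
    (h : Ω → X → H) (N : ℝ)
    (hN : ∀ χ : X → Fin K,
      ((univ.filter (fun ω : Ω => Proper (h ω) χ)).card : ℝ) ≤ N)
    (χ : X ×ₗ Fin (K + 1) → Fin K) :
    ((univ.filter (fun p : (Fin (K + 1) → Ω) × (X → Equiv.Perm (Fin (K + 1))) =>
        Proper (step h p.1 p.2) χ)).card : ℝ)
      ≤ (((K + 1).factorial - 1 : ℕ) : ℝ) ^ Fintype.card X * N ^ (K + 1) := by
  set good : X → Finset (Equiv.Perm (Fin (K + 1))) :=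
    fun α => univ.filter (fun τ => Good (fun a => χ (toLex (α, a))) τ) with hgood
  set S : (X → Equiv.Perm (Fin (K + 1))) → Fin (K + 1) → Finset Ω :=
    fun σ b => univ.filter (fun o => Proper (h o) (fun α => χ (toLex (α, (σ α).symm b)))) with hS
  have hsub : univ.filter (fun p : (Fin (K + 1) → Ω) × (X → Equiv.Perm (Fin (K + 1))) =>
        Proper (step h p.1 p.2) χ) ⊆
      ((Fintype.piFinset good).sigma (fun σ => Fintype.piFinset (S σ))).map
        ⟨fun q => (q.2, q.1), by
          rintro ⟨a, b⟩ ⟨c, d⟩ hq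
          simp only [Prod.mk.injEq] at hq
          obtain ⟨rfl, rfl⟩ := hq
          rfl⟩ := by
    rintro ⟨ω, σ⟩ hp
    have hp' := (mem_filter.mp hp).2
    simp only [mem_map, mem_sigma]
    refine ⟨⟨σ, ω⟩, ⟨?_, ?_⟩, rfl⟩
    · rw [Fintype.mem_piFinset]
      intro α
      rw [hgood]
      exact mem_filter.mpr ⟨mem_univ _, good_of_proper h ω σ χ hp' α⟩
    · rw [Fintype.mem_piFinset]
      intro b
      rw [hS]
      exact mem_filter.mpr ⟨mem_univ _, sub_proper h ω σ χ hp' b⟩
  have h1 := card_le_card hsub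
  rw [card_map, card_sigma] at h1
  have hterm : ∀ σ ∈ Fintype.piFinset good,
      ((Fintype.piFinset (S σ)).card : ℝ) ≤ N ^ (K + 1) := by
    intro σ _
    rw [Fintype.card_piFinset]
    push_cast
    calc ∏ b, ((S σ b).card : ℝ) ≤ ∏ _b : Fin (K + 1), N := by
          refine prod_le_prod (fun _ _ => Nat.cast_nonneg _) (fun b _ => ?_)
          exact hN _
      _ = N ^ (K + 1) := by rw [prod_const, card_univ, Fintype.card_fin]
  have hNpos : 0 ≤ N ^ (K + 1) := by
    have hN0' : 0 ≤ N := by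
      have hχ : Nonempty (X → Fin K) :=
        ⟨fun α => χ (toLex (α, 0))⟩
      exact le_trans (Nat.cast_nonneg _) (hN (Classical.choice hχ))
    exact pow_nonneg hN0' _
  calc ((univ.filter (fun p : (Fin (K + 1) → Ω) × (X → Equiv.Perm (Fin (K + 1))) =>
        Proper (step h p.1 p.2) χ)).card : ℝ)
      ≤ ((∑ σ ∈ Fintype.piFinset good, (Fintype.piFinset (S σ)).card : ℕ) : ℝ) := by
        exact_mod_cast h1
    _ = ∑ σ ∈ Fintype.piFinset good, ((Fintype.piFinset (S σ)).card : ℝ) := by push_cast; rfl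
    _ ≤ ∑ _σ ∈ Fintype.piFinset good, N ^ (K + 1) := sum_le_sum hterm
    _ = ((Fintype.piFinset good).card : ℝ) * N ^ (K + 1) := by rw [sum_const, nsmul_eq_mul]
    _ ≤ (((K + 1).factorial - 1 : ℕ) : ℝ) ^ Fintype.card X * N ^ (K + 1) := by
        refine mul_le_mul_of_nonneg_right ?_ hNpos
        rw [Fintype.card_piFinset]
        push_cast
        calc ∏ α, ((good α).card : ℝ) ≤ ∏ _α : X, (((K + 1).factorial - 1 : ℕ) : ℝ) := by
              refine prod_le_prod (fun _ _ => Nat.cast_nonneg _) (fun α _ => ?_)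
              exact_mod_cast card_good _
          _ = _ := by rw [prod_const, card_univ]

/-- the success bound of one window -/
noncomputable def θ (K : ℕ) : ℝ := 1 - 1 / ((K + 1).factorial : ℝ)

theorem θ_nonneg (K : ℕ) : 0 ≤ θ K := by
  have h1 : (1 : ℝ) ≤ ((K + 1).factorial : ℝ) := by exact_mod_cast (K + 1).factorial_pos
  have h2 : 1 / ((K + 1).factorial : ℝ) ≤ 1 := by
    rw [div_le_one (by linarith)]; exact h1
  unfold θ
  linarith

theorem θ_lt_one (K : ℕ) : θ K < 1 := by
  have h1 : (0 : ℝ) < ((K + 1).factorial : ℝ) := by exact_mod_cast (K + 1).factorial_pos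
  have h2 : 0 < 1 / ((K + 1).factorial : ℝ) := by positivity
  unfold θ
  linarith

theorem θ_mul (K : ℕ) : (((K + 1).factorial - 1 : ℕ) : ℝ) = θ K * ((K + 1).factorial : ℝ) := by
  have h1 : 1 ≤ (K + 1).factorial := (K + 1).factorial_pos
  have h2 : ((K + 1).factorial : ℝ) ≠ 0 := by exact_mod_cast (K + 1).factorial_pos.ne'
  rw [Nat.cast_sub h1]
  unfold θ
  field_simp
  simp

open Classical in
/-- after `m` rounds every colouring is proper for a small fraction of the height functions -/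
theorem family (K : ℕ) : ∀ m : ℕ, ∃ (X H Ω : Type) (_ : Fintype X) (_ : LinearOrder X)
    (_ : LinearOrder H) (_ : Fintype Ω) (_ : Nonempty Ω) (h : Ω → X → H) (e : ℕ),
    (∀ ω, Function.Injective (h ω)) ∧ Fintype.card X = (K + 1) ^ m ∧
    (K + 1) * e = m * (K + 1) ^ m ∧
    ∀ χ : X → Fin K, ((univ.filter (fun ω : Ω => Proper (h ω) χ)).card : ℝ)
      ≤ θ K ^ e * Fintype.card Ω := by
  intro m
  induction m with
  | zero =>
    refine ⟨Unit, Unit, Unit, inferInstance, inferInstance, inferInstance, inferInstance,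
      inferInstance, fun _ _ => (), 0, ?_, ?_, ?_, ?_⟩
    · intro ω a b _; rfl
    · simp
    · simp
    · intro χ
      have := card_le_univ (univ.filter (fun _ω : Unit => Proper (fun _ : Unit => ()) χ))
      simp only [pow_zero, one_mul]
      exact_mod_cast this
  | succ m ih =>
    obtain ⟨X, H, Ω, iX, oX, oH, iΩ, nΩ, h, e, hinj, hcard, he, hbound⟩ := ih
    refine ⟨X ×ₗ Fin (K + 1), Fin (K + 1) ×ₗ H,
      (Fin (K + 1) → Ω) × (X → Equiv.Perm (Fin (K + 1))),
      (inferInstance : Fintype (X × Fin (K + 1))), inferInstance, inferInstance,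
      inferInstance, inferInstance, fun p => step h p.1 p.2, (K + 1) ^ m + (K + 1) * e,
      ?_, ?_, ?_, ?_⟩
    · rintro ⟨ω, σ⟩
      exact step_injective hinj ω σ
    · show Fintype.card (X × Fin (K + 1)) = _
      rw [Fintype.card_prod, hcard, Fintype.card_fin, pow_succ]
    · rw [he]; ring
    · intro χ
      refine le_trans (count_step h _ hbound χ) (le_of_eq ?_)
      rw [θ_mul, hcard, Fintype.card_prod, Fintype.card_fun, Fintype.card_fun, Fintype.card_perm,
        Fintype.card_fin, hcard]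
      push_cast
      ring

/-- **Hasse diagrams of two-dimensional orders need arbitrarily many colours.** -/
theorem exists_hasse (K : ℕ) : ∃ (V H : Type) (_ : Fintype V) (_ : LinearOrder V)
    (_ : LinearOrder H) (h : V → H), Function.Injective h ∧
    ∀ χ : V → Fin K, ¬ Proper h χ := by
  classical
  obtain ⟨m, hm⟩ : ∃ m : ℕ, (K : ℝ) ^ (K + 1) * θ K ^ m < 1 := by
    have h1 : Filter.Tendsto (fun m : ℕ => (K : ℝ) ^ (K + 1) * θ K ^ m) Filter.atTop
        (nhds ((K : ℝ) ^ (K + 1) * 0)) :=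
      (tendsto_pow_atTop_nhds_zero_of_lt_one (θ_nonneg K) (θ_lt_one K)).const_mul _
    rw [mul_zero] at h1
    exact (h1.eventually (gt_mem_nhds one_pos)).exists
  obtain ⟨X, H, Ω, iX, oX, oH, iΩ, nΩ, h, e, hinj, hcard, he, hbound⟩ := family K m
  have hlt : (K : ℝ) ^ ((K + 1) ^ m) * θ K ^ e < 1 := by
    have h1 : ((K : ℝ) ^ ((K + 1) ^ m) * θ K ^ e) ^ (K + 1) < 1 := by
      have h2 : ((K : ℝ) ^ ((K + 1) ^ m) * θ K ^ e) ^ (K + 1)
          = ((K : ℝ) ^ (K + 1) * θ K ^ m) ^ ((K + 1) ^ m) := by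
        rw [mul_pow, mul_pow, ← pow_mul, ← pow_mul, ← pow_mul, ← pow_mul]
        congr 1
        · rw [mul_comm]
        · rw [← he, mul_comm]
      rw [h2]
      exact pow_lt_one₀ (by have := θ_nonneg K; positivity) hm (by positivity)
    by_contra hge
    push Not at hge
    exact absurd h1 (not_lt.mpr (one_le_pow₀ hge))
  have hΩ : (0 : ℝ) < Fintype.card Ω := by exact_mod_cast Fintype.card_pos
  by_contra hcon
  have hall : ∀ ω : Ω, ∃ χ : X → Fin K, Proper (h ω) χ := by
    intro ω
    by_contra hω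
    push Not at hω
    exact hcon ⟨X, H, iX, oX, oH, h ω, hinj ω, hω⟩
  have hcover : (univ : Finset Ω) ⊆
      (univ : Finset (X → Fin K)).biUnion (fun χ => univ.filter (fun ω => Proper (h ω) χ)) := by
    intro ω _
    obtain ⟨χ, hχ⟩ := hall ω
    exact mem_biUnion.mpr ⟨χ, mem_univ _, mem_filter.mpr ⟨mem_univ _, hχ⟩⟩
  have h1 : (Fintype.card Ω : ℝ)
      ≤ ∑ χ : X → Fin K, ((univ.filter (fun ω : Ω => Proper (h ω) χ)).card : ℝ) := by
    have := le_trans (card_le_card hcover) card_biUnion_le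
    rw [card_univ] at this
    exact_mod_cast this
  have h2 : ∑ χ : X → Fin K, ((univ.filter (fun ω : Ω => Proper (h ω) χ)).card : ℝ)
      ≤ (K : ℝ) ^ ((K + 1) ^ m) * (θ K ^ e * Fintype.card Ω) := by
    refine le_trans (sum_le_sum (fun χ _ => hbound χ)) (le_of_eq ?_)
    rw [sum_const, card_univ, Fintype.card_fun, Fintype.card_fin, hcard, nsmul_eq_mul]
    push_cast
    ring
  have h3 : (K : ℝ) ^ ((K + 1) ^ m) * (θ K ^ e * Fintype.card Ω) < Fintype.card Ω := by
    rw [← mul_assoc]
    calc _ < 1 * (Fintype.card Ω : ℝ) := mul_lt_mul_of_pos_right hlt hΩ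
      _ = _ := one_mul _
  linarith

end Q119.PT
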