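import Mathlib
import Pool.Agent.Q119.PT.Hasse

/-!
The poset tournament of a two-dimensional order: the partial order consists of the comparable pairs
that are not cover pairs.
-/

namespace Q119.PT

variable {V H : Type} [LinearOrder V] [LinearOrder H]

/-- cover pairs -/
def Cov (h : V → H) (u v : V) : Prop :=
  (u < v ∧ h u < h v) ∧ ∀ z, u < z → z < v → h u < h z → h z < h v → False

/-- comparable pairs that are not cover pairs -/
def Par (h : V → H) (u v : V) : Prop :=
  (u < v ∧ h u < h v) ∧ ∃ z, u < z ∧ z < v ∧ h u < h z ∧ h z < h v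

/-- the tournament -/
def Arc (h : V → H) (u v : V) : Prop := (u < v ∧ ¬ Par h u v) ∨ (v < u ∧ Par h v u)

theorem par_trans {h : V → H} {u v w : V} (h1 : Par h u v) (h2 : Par h v w) : Par h u w :=
  ⟨⟨h1.1.1.trans h2.1.1, h1.1.2.trans h2.1.2⟩, v, h1.1.1, h2.1.1, h1.1.2, h2.1.2⟩

theorem cov_or_par {h : V → H} {u v : V} (h1 : u < v) (h2 : h u < h v) : Cov h u v ∨ Par h u v := by
  by_cases hz : ∃ z, u < z ∧ z < v ∧ h u < h z ∧ h z < h v
  · exact Or.inr ⟨⟨h1, h2⟩, hz⟩
  · exact Or.inl ⟨⟨h1, h2⟩, fun z a b c d => hz ⟨z, a, b, c, d⟩⟩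

theorem not_par_of_cov {h : V → H} {u v : V} (h1 : Cov h u v) : ¬ Par h u v := by
  rintro ⟨_, z, a, b, c, d⟩
  exact h1.2 z a b c d

theorem arc_of_cov {h : V → H} {u v : V} (h1 : Cov h u v) : Arc h u v :=
  Or.inl ⟨h1.1.1, not_par_of_cov h1⟩

theorem arc_irrefl (h : V → H) (u : V) : ¬ Arc h u u := by
  rintro (⟨h1, _⟩ | ⟨h1, _⟩) <;> exact lt_irrefl _ h1

theorem arc_total (h : V → H) {u v : V} (huv : u ≠ v) :
    (Arc h u v ∨ Arc h v u) ∧ ¬ (Arc h u v ∧ Arc h v u) := by
  rcases lt_or_gt_of_ne huv with hlt | hlt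
  · constructor
    · by_cases hp : Par h u v
      · exact Or.inr (Or.inr ⟨hlt, hp⟩)
      · exact Or.inl (Or.inl ⟨hlt, hp⟩)
    · rintro ⟨h1 | h1, h2 | h2⟩
      · exact lt_asymm h1.1 h2.1
      · exact h1.2 h2.2
      · exact lt_asymm h1.1 hlt
      · exact lt_asymm h1.1 h2.1
  · constructor
    · by_cases hp : Par h v u
      · exact Or.inl (Or.inr ⟨hlt, hp⟩)
      · exact Or.inr (Or.inl ⟨hlt, hp⟩)
    · rintro ⟨h1 | h1, h2 | h2⟩
      · exact lt_asymm h1.1 h2.1
      · exact lt_asymm h1.1 hlt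
      · exact h2.2 h1.2
      · exact lt_asymm h1.1 h2.1

/-- with respect to the reversed first order the forward arcs are transitive -/
theorem arc_trans_back {h : V → H} {u v w : V} (h1 : v < u) (h2 : w < v)
    (h3 : Arc h u v) (h4 : Arc h v w) : Arc h u w := by
  have p1 : Par h v u := by
    rcases h3 with h3 | h3
    · exact absurd h3.1 (lt_asymm h1)
    · exact h3.2
  have p2 : Par h w v := by
    rcases h4 with h4 | h4
    · exact absurd h4.1 (lt_asymm h2)
    · exact h4.2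
  exact Or.inr ⟨h2.trans h1, par_trans p2 p1⟩

/-- with respect to the reversed second order the backward arcs are the cover pairs -/
theorem cov_of_backedge {h : V → H} {v w : V} (h1 : h w < h v) (h2 : Arc h w v) : Cov h w v := by
  rcases h2 with ⟨h3, h4⟩ | ⟨_, h4⟩
  · exact (cov_or_par h3 h1).resolve_right h4
  · exact absurd h4.1.2 (lt_asymm h1)

theorem no_triangle {h : V → H} {a b c : V} (h1 : Cov h a b ∨ Cov h b a)
    (h2 : Cov h b c ∨ Cov h c b) (h3 : Cov h a c ∨ Cov h c a) : False := by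
  have key : ∀ x y z : V, Cov h x y → Cov h y z → Cov h x z → False :=
    fun x y z p q r => r.2 y p.1.1 q.1.1 p.1.2 q.1.2
  rcases h1 with h1 | h1 <;> rcases h2 with h2 | h2 <;> rcases h3 with h3 | h3
  · exact key _ _ _ h1 h2 h3
  · exact lt_asymm (h1.1.1.trans h2.1.1) h3.1.1
  · exact key _ _ _ h3 h2 h1
  · exact key _ _ _ h3 h1 h2
  · exact key _ _ _ h1 h3 h2
  · exact key _ _ _ h2 h3 h1
  · exact lt_asymm (h3.1.1.trans h2.1.1) h1.1.1
  · exact key _ _ _ h2 h1 h3

/-- a class without directed triangles is coloured properly by two colours -/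
theorem two_colours {h : V → H} {k : ℕ} (c : V → Fin k)
    (hc : ∀ x y z : V, c x = c y → c y = c z → Arc h x y → Arc h y z → Arc h z x → False)
    {m : ℕ} (hk : k ≤ m) : ∃ χ : V → Fin (2 * m), Proper h χ := by
  classical
  refine ⟨fun v => ⟨2 * (c v : ℕ) + if ∃ u, c u = c v ∧ Cov h u v then 1 else 0, ?_⟩, ?_⟩
  · have := (c v).isLt
    split_ifs <;> omega
  · intro u v huv hhuv hempty heq
    have hcov : Cov h u v := ⟨⟨huv, hhuv⟩, hempty⟩
    simp only [Fin.mk.injEq] at heq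
    have hcuv : (c u : ℕ) = c v := by
      split_ifs at heq <;> omega
    have hcuv' : c u = c v := Fin.ext hcuv
    have hv : ∃ u', c u' = c v ∧ Cov h u' v := ⟨u, hcuv', hcov⟩
    rw [if_pos hv] at heq
    have hu : ∃ t, c t = c u ∧ Cov h t u := by
      by_contra hu
      rw [if_neg hu] at heq
      omega
    obtain ⟨t, htu, htcov⟩ := hu
    refine hc t u v htu hcuv' (arc_of_cov htcov) (arc_of_cov hcov) (Or.inr ⟨?_, ?_⟩)
    · exact htcov.1.1.trans huv
    · exact ⟨⟨htcov.1.1.trans huv, htcov.1.2.trans hhuv⟩, u, htcov.1.1, huv, htcov.1.2, hhuv⟩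

end Q119.PT
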